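import Mathlib
import Pool.Agent.Lib.MP_05e272_an.Bounded
import Pool.Agent.Lib.MP_05e272_an.GadgetOf
import Pool.Agent.Lib.MP_05e272_an.WeightsFin
import Pool.Agent.Lib.MP_05e272_an.GeoStep
import Pool.Agent.Lib.MP_05e272_an.SepStep
import Pool.Agent.Lib.MP_05e272_an.LowStep

set_option autoImplicit false

/-!
MP_05e272_an: uniformly bounded separating functions do not imply interpolation, already for a
bounded domain (a domain contained in the unit disc) and the separation constant 21.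
-/

namespace Pool.Agent.Results.MP_05e272_an.BoundedDomain

/-- `F` is a bounded holomorphic function on `D` with `|F| ≤ C` there. -/
structure HolBdd (D : Set ℂ) (C : ℝ) (F : ℂ → ℂ) : Prop where
  hol : DifferentiableOn ℂ F D
  bdd : ∀ w ∈ D, ‖F w‖ ≤ C

/-- `z` is an interpolating sequence for the bounded holomorphic functions on `D`. -/
def Interpolating (D : Set ℂ) (z : ℕ → ℂ) : Prop :=
  ∀ α : ℕ → ℂ, (∃ M : ℝ, ∀ j, ‖α j‖ ≤ M) → ∃ (C : ℝ) (F : ℂ → ℂ), HolBdd D C F ∧ ∀ j, F (z j) = α j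

/-- `z` has separating functions on `D` bounded by `C`. -/
def Separated (D : Set ℂ) (z : ℕ → ℂ) (C : ℝ) : Prop :=
  ∀ j, ∃ F : ℂ → ℂ, HolBdd D C F ∧ F (z j) = 1 ∧ ∀ k, k ≠ j → F (z k) = 0

/-- There are a domain `D` inside the unit disc and a sequence in `D` that has separating functions
bounded by `21` and is not interpolating for the bounded holomorphic functions on `D`. -/
theorem result : ∃ (D : Set ℂ) (z : ℕ → ℂ), IsOpen D ∧ IsConnected D ∧ (∀ w ∈ D, ‖w‖ < 1) ∧
    (∀ j, z j ∈ D) ∧ Separated D z 21 ∧ ¬ Interpolating D z := by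
  obtain ⟨D, z, F, α, h1, h2, h3, h4, h5, h6, h7, h8, h9, h10⟩ :=
    MP05e272.bounded_counterexample (MP05e272.gadgetOf MP05e272.ring MP05e272.weights
      MP05e272.geoStep MP05e272.sepStep MP05e272.lowStep)
  refine ⟨D, z, h1, h2, fun w hw => ?_, h4, fun j => ⟨F j, ⟨h5 j, h6 j⟩, h7 j, fun k hk => h8 j k hk⟩,
    fun h => ?_⟩
  · have := h3 hw
    rwa [Metric.mem_ball, dist_zero_right] at this
  · obtain ⟨C, G, hG, hGα⟩ := h α ⟨1, h9⟩
    exact h10 G hG.hol ⟨C, hG.bdd⟩ hGα

end Pool.Agent.Results.MP_05e272_an.BoundedDomain
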